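import Pool.Agent.helper40.StsProof

/-!
# Minimum semidefinite rank of Steiner triple system incidence graphs

The minimum semidefinite rank of the incidence graph of a Steiner triple system is not determined by
the order of the system. The two systems are the affine system `AG(n,3)` and the Bose system of
order `3 ^ n`. The Bose system has `msr ≤ b + 9` (an explicit trigonometric representation), while
for the affine system `msr - b` tends to infinity, by a compactness argument in `ℂ ^ r` and the
theorem of Roth on three-term progressions.
-/

namespace Pool.Agent.Results.MP_2ade00_co.MsrDiffers

open Pool.Agent.helper40.StsMsr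

/-- For every `K` and every sufficiently large `n` there are two nonisomorphic Steiner triple
systems of order `3 ^ n` whose incidence graphs have minimum semidefinite ranks differing by more
than `K`. -/
theorem result : ∀ K : ℕ, ∃ n₀ : ℕ, ∀ n ≥ n₀, ∃ S₁ S₂ : STS (Fin (3 ^ n)),
    ¬ S₁.Isomorphic S₂ ∧ msr S₂.incidenceGraph + K < msr S₁.incidenceGraph :=
  main

end Pool.Agent.Results.MP_2ade00_co.MsrDiffers
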